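import Pool.Agent.Lib.MP_d55432_al.SIX.Iface

/-!
# SIX, module GEN: the generic value of a Lie polynomial on `so₆`
-/

namespace Pool.Agent.Lib.MP_d55432_al.SIX.H68

open Matrix MvPolynomial

attribute [local instance 100] LieRing.ofAssociativeRing

variable {K : Type*} [Field K]

/-- A Lie polynomial maps a Lie subalgebra into itself. -/
theorem lift_mem {L : Type*} [LieRing L] [LieAlgebra K L] (S : LieSubalgebra K L) {σ : Type*}
    (a : σ → L) (ha : ∀ i, a i ∈ S) (p : FreeLieAlgebra K σ) : FreeLieAlgebra.lift K a p ∈ S := by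
  have h := map_lift S.incl (fun i => (⟨a i, ha i⟩ : S)) p
  have h2 : (fun i => S.incl (⟨a i, ha i⟩ : S)) = a := rfl
  rw [h2] at h
  rw [h]
  exact (FreeLieAlgebra.lift K (fun i => (⟨a i, ha i⟩ : S)) p).2

/-- Skew symmetric matrices over a commutative `K`-algebra as a Lie subalgebra over `K`. -/
def soK (K : Type*) [Field K] (A : Type*) [CommRing A] [Algebra K A] :
    LieSubalgebra K (M6 A) where
  carrier := {M | Mᵀ = -M}
  add_mem' := by
    intro a b ha hb
    change (a + b)ᵀ = -(a + b)
    rw [transpose_add, show aᵀ = -a from ha, show bᵀ = -b from hb, neg_add]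
  zero_mem' := by
    change (0 : M6 A)ᵀ = -0
    rw [transpose_zero, neg_zero]
  smul_mem' := by
    intro c M hM
    change (c • M)ᵀ = -(c • M)
    rw [transpose_smul, show Mᵀ = -M from hM, smul_neg]
  lie_mem' := by
    intro a b ha hb
    change (a * b - b * a)ᵀ = -(a * b - b * a)
    rw [transpose_sub, transpose_mul, transpose_mul, show aᵀ = -a from ha,
      show bᵀ = -b from hb, neg_mul_neg, neg_mul_neg, neg_sub]

/-- The generic skew symmetric matrices. -/
noncomputable def genX (K : Type*) [Field K] (m : ℕ) (r : Fin m) : M6 (MvPolynomial (Fin m × Fin 6 × Fin 6) K) :=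
  Matrix.of fun i j => if i < j then X (r, i, j) else if j < i then -X (r, j, i) else 0

theorem genX_skew (m : ℕ) (r : Fin m) : (genX K m r)ᵀ = -genX K m r := by
  ext1 i j
  change (if j < i then (X (r, j, i) : MvPolynomial (Fin m × Fin 6 × Fin 6) K)
      else if i < j then -X (r, i, j) else 0) =
    -(if i < j then (X (r, i, j) : MvPolynomial (Fin m × Fin 6 × Fin 6) K)
      else if j < i then -X (r, j, i) else 0)
  rcases lt_trichotomy i j with h | h | h
  · rw [if_neg (not_lt.2 h.le), if_pos h, if_pos h]
  · subst h; simp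
  · rw [if_pos h, if_neg (not_lt.2 h.le), if_pos h, neg_neg]

/-- Conjugation by a diagonal matrix of signs. -/
def conjS (K : Type*) [Field K] (A : Type*) [CommRing A] [Algebra K A] (d : Fin 6 → A)
    (hd : ∀ i, d i * d i = 1) : M6 A →ₗ⁅K⁆ M6 A where
  toFun M := Matrix.of fun i j => d i * M i j * d j
  map_add' M N := by
    ext1 i j
    change d i * (M i j + N i j) * d j = d i * M i j * d j + d i * N i j * d j
    ring
  map_smul' c M := by
    ext1 i j
    change d i * (c • M i j) * d j = c • (d i * M i j * d j)
    rw [mul_smul_comm, smul_mul_assoc]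
  map_lie' := by
    intro M N
    have h3 : ∀ P Q : M6 A, (Matrix.of fun i j => d i * (P * Q) i j * d j) =
        (Matrix.of fun i j => d i * P i j * d j) * (Matrix.of fun i j => d i * Q i j * d j) := by
      intro P Q
      ext1 i j
      rw [Matrix.mul_apply]
      change d i * (P * Q) i j * d j = ∑ k, (d i * P i k * d k) * (d k * Q k j * d j)
      rw [Matrix.mul_apply, Finset.mul_sum, Finset.sum_mul]
      refine Finset.sum_congr rfl fun k _ => ?_
      linear_combination (-(d i * P i k * Q k j * d j)) * hd k
    change (Matrix.of fun i j => d i * (M * N - N * M) i j * d j) =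
      (Matrix.of fun i j => d i * M i j * d j) * (Matrix.of fun i j => d i * N i j * d j) -
      (Matrix.of fun i j => d i * N i j * d j) * (Matrix.of fun i j => d i * M i j * d j)
    rw [← h3, ← h3]
    ext1 i j
    change d i * ((M * N) i j - (N * M) i j) * d j =
      d i * (M * N) i j * d j - d i * (N * M) i j * d j
    ring

theorem sgI_sq (s i : Fin 6) : sgI s i * sgI s i = 1 := by
  unfold sgI; split_ifs <;> norm_num

/-- GEN: the generic value of a Lie polynomial on `so₆`. -/
theorem gen (K : Type*) [Field K] : GEN_S K := by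
  intro m p
  have hmem : FreeLieAlgebra.lift K (genX K m) p ∈ soK K (MvPolynomial (Fin m × Fin 6 × Fin 6) K) :=
    lift_mem _ _ (fun i => genX_skew m i) p
  refine ⟨FreeLieAlgebra.lift K (genX K m) p, hmem, ?_, ?_⟩
  · intro v
    have h1 := map_lift (MvPolynomial.aeval (R := K) v).mapMatrix.toLieHom (genX K m) p
    have h2 : ∀ M : M6 (MvPolynomial (Fin m × Fin 6 × Fin 6) K),
        (MvPolynomial.aeval (R := K) v).mapMatrix.toLieHom M =
          M.map (MvPolynomial.eval v) := by
      intro M
      ext i j
      simp only [Matrix.map_apply, ← MvPolynomial.aeval_eq_eval]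
      rfl
    rw [h2] at h1
    rw [← h1]
    have h3 := map_lift (LieAlgebra.Orthogonal.so (Fin 6) K).incl (skv v) p
    change FreeLieAlgebra.lift K (fun i => ((skv v i : L6 K) : M6 K)) p =
      (FreeLieAlgebra.lift K (skv v) p : L6 K).1 at h3
    rw [← h3]
    congr 2
    funext r
    rw [h2]
    ext i j
    change (if i < j then v (r, i, j) else if j < i then -v (r, j, i) else 0) =
      MvPolynomial.eval v (if i < j then X (r, i, j) else if j < i then -X (r, j, i) else 0)
    split_ifs <;> simp
  · intro s i j
    have h1 := map_lift (Degrees.sgnHom K (epsI (m := m) s)).mapMatrix.toLieHom (genX K m) p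
    have hd : ∀ i : Fin 6, (C ((sgI s i : ℤ) : K) : MvPolynomial (Fin m × Fin 6 × Fin 6) K) *
        C ((sgI s i : ℤ) : K) = 1 := by
      intro i
      rw [← C_mul, ← Int.cast_mul, sgI_sq, Int.cast_one, C_1]
    have h4 := map_lift (conjS K (MvPolynomial (Fin m × Fin 6 × Fin 6) K)
      (fun i => C ((sgI s i : ℤ) : K)) hd) (genX K m) p
    have h5 : (fun r => (conjS K (MvPolynomial (Fin m × Fin 6 × Fin 6) K)
        (fun i => C ((sgI s i : ℤ) : K)) hd) (genX K m r)) =
        (fun r => (Degrees.sgnHom K (epsI (m := m) s)).mapMatrix.toLieHom (genX K m r)) := by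
      funext r
      ext1 a b
      change C ((sgI s a : ℤ) : K) * (if a < b then X (r, a, b) else
          if b < a then -X (r, b, a) else 0) * C ((sgI s b : ℤ) : K) =
        Degrees.sgnHom K (epsI (m := m) s) (if a < b then X (r, a, b) else
          if b < a then -X (r, b, a) else 0)
      have hX : ∀ t : Fin m × Fin 6 × Fin 6, Degrees.sgnHom K (epsI (m := m) s) (X t) =
          C ((epsI s t : ℤ) : K) * X t := by
        intro t
        rw [Degrees.sgnHom, aeval_X]
      split_ifs with hab hba
      · rw [hX, epsI, Int.cast_mul, C_mul]; ring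
      · rw [map_neg, hX, epsI, Int.cast_mul, C_mul]; ring
      · simp
    rw [h5, h1] at h4
    have h6 := congrFun (congrFun h4 i) j
    change Degrees.sgnHom K (epsI (m := m) s) (FreeLieAlgebra.lift K (genX K m) p i j) =
      C ((sgI s i : ℤ) : K) * (FreeLieAlgebra.lift K (genX K m) p i j) * C ((sgI s j : ℤ) : K) at h6
    rw [h6, Int.cast_mul, C_mul]
    ring

end Pool.Agent.Lib.MP_d55432_al.SIX.H68
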